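import Mathlib
import Pool.Agent.H527.N.N33

/-! For almost all moduli `q` the ratios of the number of primes in a residue class to the expected number come near
to every number of a fixed interval around `1`, at the scale `x / q = (log q) ^ b`. -/

set_option autoImplicit false

namespace Pool.Agent.H527.Old.RatiosFillInterval

open Finset Filter Topology

/-- the number of primes `p ≤ x` with `p ≡ a` modulo `q` -/
noncomputable def primesInClass (x : ℝ) (q a : ℕ) : ℕ := ((Icc 1 ⌊x⌋₊).filter (fun p => p.Prime ∧ p ≡ a [MOD q])).card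

/-- the residue classes `a` in `(0, q]`, prime to `q`, such that for all real `x` with
`q (log q) ^ b ≤ x ≤ Λ q (log q) ^ b` the number of primes in the class differs from `lam π(x) / φ(q)` by at most
`κ π(x) / φ(q)` -/
def classesNear (b lam κ Λ : ℝ) (q : ℕ) : Set ℕ :=
  {a | 0 < a ∧ a ≤ q ∧ a.Coprime q ∧ ∀ x : ℝ, q * (Real.log q) ^ b ≤ x → x ≤ Λ * (q * (Real.log q) ^ b) →
    |(primesInClass x q a : ℝ) - lam * ((Nat.primeCounting ⌊x⌋₊ : ℝ) / Nat.totient q)| ≤
      κ * ((Nat.primeCounting ⌊x⌋₊ : ℝ) / Nat.totient q)}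

theorem result (b : ℝ) (hb : 1 < b) (ε : ℝ) (hε : 0 < ε) :
    ∃ c : ℝ, 0 < c ∧ ∀ κ : ℝ, 0 < κ → ∀ Λ : ℝ, Tendsto (fun X : ℕ => (Set.ncard {q : ℕ | 1 ≤ q ∧ q ≤ X ∧
      ¬ ∀ lam : ℝ, |lam - 1| ≤ c → (q : ℝ) * Real.exp (-((Real.log q) ^ ε)) ≤
        ((classesNear b lam κ Λ q).ncard : ℝ)} : ℝ) / X) atTop (𝓝 0) := by
  classical
  obtain ⟨c, hc, h⟩ := Pool.Agent.H527.N.all_values b hb ε hε
  refine ⟨c, hc, fun κ hκ Λ => ?_⟩
  refine (h κ hκ Λ).congr fun X => ?_
  congr 2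
  have h1 : ∀ (lam : ℝ) (q : ℕ), (classesNear b lam κ Λ q).ncard = (Pool.Agent.H527.N.near b lam κ Λ q).card := by
    intro lam q
    rw [← Set.ncard_coe_finset]
    congr 1
    ext a
    unfold classesNear Pool.Agent.H527.N.near primesInClass Pool.Agent.H527.N.pc
    rw [Finset.mem_coe, mem_filter, mem_Ioc, Set.mem_ofPred_eq, and_assoc]
  rw [← Set.ncard_coe_finset]
  congr 1
  ext q
  rw [Finset.mem_coe, mem_filter, mem_Icc, Set.mem_ofPred_eq, and_assoc]
  unfold Pool.Agent.H527.N.AllVal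
  simp_rw [h1]

end Pool.Agent.H527.Old.RatiosFillInterval
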